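import Pool.Agent.H608R4.KM.Stm

/-!
# KM-RS: small order parameter
-/

set_option autoImplicit false

namespace Pool.Agent.TH230.KM

open Finset Pool.Agent.H608R4.KM

theorem R4_le {n : ℕ} (x y : Fin n → ℝ) (hu : ∀ i, x i ^ 2 + y i ^ 2 = 1) :
    R4 x y ≤ (n : ℝ) ^ 2 := by
  unfold R4 C4 S4
  have h1 := sq_sum_le_card_mul_sum_sq (s := (univ : Finset (Fin n)))
    (f := fun i => x i ^ 4 - 6 * x i ^ 2 * y i ^ 2 + y i ^ 4)
  have h2 := sq_sum_le_card_mul_sum_sq (s := (univ : Finset (Fin n)))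
    (f := fun i => 4 * x i ^ 3 * y i - 4 * x i * y i ^ 3)
  have h3 : ∑ i, (x i ^ 4 - 6 * x i ^ 2 * y i ^ 2 + y i ^ 4) ^ 2 +
      ∑ i, (4 * x i ^ 3 * y i - 4 * x i * y i ^ 3) ^ 2 = (n : ℝ) := by
    rw [← sum_add_distrib]
    have h4 : ∀ i, (x i ^ 4 - 6 * x i ^ 2 * y i ^ 2 + y i ^ 4) ^ 2 +
        (4 * x i ^ 3 * y i - 4 * x i * y i ^ 3) ^ 2 = 1 := by
      intro i
      have h5 : (x i ^ 4 - 6 * x i ^ 2 * y i ^ 2 + y i ^ 4) ^ 2 +
        (4 * x i ^ 3 * y i - 4 * x i * y i ^ 3) ^ 2 = (x i ^ 2 + y i ^ 2) ^ 4 := by ring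
      rw [h5, hu i, one_pow]
    simp [h4]
  simp only [card_univ, Fintype.card_fin] at h1 h2
  calc _ ≤ (n : ℝ) * ∑ i, (x i ^ 4 - 6 * x i ^ 2 * y i ^ 2 + y i ^ 4) ^ 2 +
      (n : ℝ) * ∑ i, (4 * x i ^ 3 * y i - 4 * x i * y i ^ 3) ^ 2 := add_le_add h1 h2
    _ = (n : ℝ) ^ 2 := by rw [← mul_add, h3]; ring

theorem sum_v {n : ℕ} (a : Fin n → Fin n → ℝ) (x y : Fin n → ℝ)
    (hab : ∀ i j, i ≠ j → a i j + b a i j = 1) (l1 : ∀ i, ∑ j, a i j * v x y i j = 0) (i : Fin n) :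
    x i * (∑ j, y j) - y i * (∑ j, x j) = ∑ j, b a i j * v x y i j := by
  have h1 : x i * (∑ j, y j) - y i * (∑ j, x j) = ∑ j, v x y i j := by
    unfold v
    rw [mul_sum, mul_sum, ← sum_sub_distrib]
  have h2 : ∑ j, v x y i j = ∑ j, (a i j * v x y i j + b a i j * v x y i j) := by
    refine sum_congr rfl fun j _ => ?_
    by_cases hij : i = j
    · subst hij
      have : v x y i i = 0 := by unfold v; ring
      rw [this]; ring
    · rw [← add_mul, hab i j hij, one_mul]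
  rw [h1, h2, sum_add_distrib, l1 i, zero_add]

theorem cs {n : ℕ} (f g : Fin n → ℝ) (hf : ∀ j, f j = 0 ∨ f j = 1) :
    (∑ j, f j * g j) ^ 2 ≤ (∑ j, f j) * ∑ j, f j * g j ^ 2 := by
  have h := sum_mul_sq_le_sq_mul_sq (univ : Finset (Fin n)) f (fun j => f j * g j)
  have e1 : ∑ j, f j * (f j * g j) = ∑ j, f j * g j := by
    refine sum_congr rfl fun j _ => ?_
    rcases hf j with h | h <;> rw [h] <;> ring
  have e2 : ∑ j, f j ^ 2 = ∑ j, f j := by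
    refine sum_congr rfl fun j _ => ?_
    rcases hf j with h | h <;> rw [h] <;> ring
  have e3 : ∑ j, (f j * g j) ^ 2 = ∑ j, f j * g j ^ 2 := by
    refine sum_congr rfl fun j _ => ?_
    rcases hf j with h | h <;> rw [h] <;> ring
  rw [e1, e2, e3] at h
  exact h

theorem t_RS (hDB : S_DB) (hBU : S_BU) (hKI : S_KI) : S_RS := by
  intro n a x y hE hR
  obtain ⟨hdeg, -, hzo, hab, -⟩ := hDB n a hE.gr
  obtain ⟨-, -, hbu⟩ := hBU n a x y hE
  have hki := hKI n a x y hE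
  have hn : (2 : ℝ) ≤ n := by exact_mod_cast hE.gr.two
  have hn0 : (0 : ℝ) < n := by linarith
  have hD : dl = 1 / 10 ^ 8 := rfl
  have hL : 0 ≤ Lam a x y := by
    unfold Lam
    exact sum_nonneg fun i _ => sum_nonneg fun j _ => sq_nonneg _
  have hR3 : 0 ≤ R3 x y := by unfold R3; positivity
  have hR4 := R4_le x y hE.unit
  have hR1 : 0 ≤ R1 x y := by unfold R1; positivity
  have hR20 : 0 ≤ R2 x y := by unfold R2; positivity
  have hR2 : R2 x y ≤ 4 / 25 * (n : ℝ) ^ 2 := by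
    rw [hD] at hki hR
    have h1 : (0 : ℝ) ≤ (n : ℝ) ^ 2 := by positivity
    norm_num at hki hR ⊢
    linarith
  -- the sum of the squares from below
  have hlow : (n : ℝ) * R1 x y / 2 - R1 x y * (2 / 5 * n) / 2 ≤
      ∑ i, (x i * (∑ j, y j) - y i * (∑ j, x j)) ^ 2 := by
    obtain ⟨c1, hc1⟩ : ∃ c, c = ∑ j, x j := ⟨_, rfl⟩
    obtain ⟨s1, hs1⟩ : ∃ c, c = ∑ j, y j := ⟨_, rfl⟩
    obtain ⟨c2, hc2⟩ : ∃ c, c = ∑ j, (x j ^ 2 - y j ^ 2) := ⟨_, rfl⟩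
    obtain ⟨s2, hs2⟩ : ∃ c, c = ∑ j, 2 * x j * y j := ⟨_, rfl⟩
    have r1 : R1 x y = c1 ^ 2 + s1 ^ 2 := by unfold R1; rw [hc1, hs1]
    have r2 : R2 x y = c2 ^ 2 + s2 ^ 2 := by unfold R2; rw [hc2, hs2]
    rw [← hc1, ← hs1]
    have e1 : ∀ i, (x i * s1 - y i * c1) ^ 2 = (c1 ^ 2 + s1 ^ 2) / 2 -
        (c1 ^ 2 - s1 ^ 2) / 2 * (x i ^ 2 - y i ^ 2) - s1 * c1 * (2 * x i * y i) := by
      intro i
      have := hE.unit i
      linear_combination (c1 ^ 2 + s1 ^ 2) / 2 * this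
    have e2 : ∑ i, (x i * s1 - y i * c1) ^ 2 = (n : ℝ) * ((c1 ^ 2 + s1 ^ 2) / 2) -
        (c1 ^ 2 - s1 ^ 2) / 2 * c2 - s1 * c1 * s2 := by
      simp_rw [e1]
      rw [sum_sub_distrib, sum_sub_distrib, ← mul_sum, ← mul_sum, ← hc2, ← hs2]
      simp
    have key : ((c1 ^ 2 - s1 ^ 2) * c2 + 2 * c1 * s1 * s2) ^ 2 ≤ (R1 x y * (2 / 5 * n)) ^ 2 := by
      have e3 : ((c1 ^ 2 - s1 ^ 2) * c2 + 2 * c1 * s1 * s2) ^ 2 +
          ((c1 ^ 2 - s1 ^ 2) * s2 - 2 * c1 * s1 * c2) ^ 2 =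
          (c1 ^ 2 + s1 ^ 2) ^ 2 * (c2 ^ 2 + s2 ^ 2) := by ring
      have e4 : (c1 ^ 2 + s1 ^ 2) ^ 2 * (c2 ^ 2 + s2 ^ 2) ≤
          (c1 ^ 2 + s1 ^ 2) ^ 2 * (4 / 25 * (n : ℝ) ^ 2) :=
        mul_le_mul_of_nonneg_left (by rw [← r2]; exact hR2) (by positivity)
      have e5 := sq_nonneg ((c1 ^ 2 - s1 ^ 2) * s2 - 2 * c1 * s1 * c2)
      rw [r1]
      have e6 : ((c1 ^ 2 + s1 ^ 2) * (2 / 5 * (n : ℝ))) ^ 2 =
          (c1 ^ 2 + s1 ^ 2) ^ 2 * (4 / 25 * (n : ℝ) ^ 2) := by ring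
      rw [e6]
      linarith
    have key2 := le_of_abs_le (abs_le_of_sq_le_sq key (by positivity))
    rw [e2]
    rw [r1] at key2 ⊢
    linarith
  -- from above
  have hup : ∑ i, (x i * (∑ j, y j) - y i * (∑ j, x j)) ^ 2 ≤
      (1 / 4 + dl) * n * (2 / 3 * (2 * dl * (n : ℝ) ^ 2 + R1 x y)) := by
    have h1 : ∀ i, (x i * (∑ j, y j) - y i * (∑ j, x j)) ^ 2 ≤
        (1 / 4 + dl) * n * (2 / 3 * ∑ j, (2 * b a i j - b a i j * (2 * K (u x y i j)))) := by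
      intro i
      rw [sum_v a x y hab hE.l1 i]
      have h2 := cs (fun j => b a i j) (fun j => v x y i j) (hzo i)
      have h3 : ∑ j, b a i j * v x y i j ^ 2 ≤
          2 / 3 * ∑ j, (2 * b a i j - b a i j * (2 * K (u x y i j))) := by
        rw [mul_sum]
        refine sum_le_sum fun j _ => ?_
        have h4 : v x y i j ^ 2 + u x y i j ^ 2 = 1 := by
          unfold v u
          have := hE.unit i
          have := hE.unit j
          have e : (x i * y j - y i * x j) ^ 2 + (x i * x j + y i * y j) ^ 2 =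
              (x i ^ 2 + y i ^ 2) * (x j ^ 2 + y j ^ 2) := by ring
          rw [e, hE.unit i, hE.unit j, one_mul]
        have h5 : v x y i j ^ 2 ≤ 2 / 3 * (2 - 2 * K (u x y i j)) := by
          unfold K
          nlinarith [sq_nonneg (1 + u x y i j)]
        have h6 : 0 ≤ b a i j := by rcases hzo i j with h | h <;> rw [h] <;> norm_num
        have := mul_le_mul_of_nonneg_left h5 h6
        linarith
      have h7 : 0 ≤ ∑ j, b a i j * v x y i j ^ 2 := by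
        refine sum_nonneg fun j _ => ?_
        have h6 : 0 ≤ b a i j := by rcases hzo i j with h | h <;> rw [h] <;> norm_num
        positivity
      have hD0 : 0 ≤ (1 / 4 + dl) * (n : ℝ) := by rw [hD]; positivity
      calc (∑ j, b a i j * v x y i j) ^ 2
          ≤ (∑ j, b a i j) * ∑ j, b a i j * v x y i j ^ 2 := h2
        _ ≤ (1 / 4 + dl) * n * ∑ j, b a i j * v x y i j ^ 2 :=
            mul_le_mul_of_nonneg_right (hdeg i) h7
        _ ≤ _ := mul_le_mul_of_nonneg_left h3 hD0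
    refine (sum_le_sum fun i _ => h1 i).trans ?_
    rw [← mul_sum, ← mul_sum]
    have hD0 : 0 ≤ (1 / 4 + dl) * (n : ℝ) := by rw [hD]; positivity
    refine mul_le_mul_of_nonneg_left (mul_le_mul_of_nonneg_left ?_ (by norm_num)) hD0
    have h8 : ∑ i, ∑ j, (2 * b a i j - b a i j * (2 * K (u x y i j))) =
        2 * ∑ i, ∑ j, b a i j - ∑ i, ∑ j, b a i j * (2 * K (u x y i j)) := by
      simp_rw [sum_sub_distrib, ← mul_sum]
    have h9 : ∑ i, ∑ j, b a i j ≤ (1 / 4 + dl) * (n : ℝ) ^ 2 := by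
      refine (sum_le_sum fun i _ => hdeg i).trans ?_
      rw [sum_const, card_univ, Fintype.card_fin, nsmul_eq_mul]
      exact le_of_eq (by ring)
    rw [h8]
    linarith
  have h10 : (n : ℝ) * (3 / 10 * R1 x y) ≤
      n * ((1 / 4 + dl) * (2 / 3 * (2 * dl * (n : ℝ) ^ 2 + R1 x y))) := by
    have := hlow.trans hup
    linarith
  have h11 := le_of_mul_le_mul_left h10 hn0
  rw [hD] at h11 ⊢
  have h1 : (0 : ℝ) ≤ (n : ℝ) ^ 2 := by positivity
  norm_num at h11 ⊢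
  linarith

end Pool.Agent.TH230.KM
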